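import Mathlib

/-!
# Prime avoidance for cosets, regular sequences among generators
-/

set_option autoImplicit false

namespace BEHG

open RingTheory.Sequence Pointwise CategoryTheory Abelian

universe u

/-- Prime avoidance for a coset `f + J`. -/
theorem coset_avoid {R : Type u} [CommRing R] (f : R) (J : Ideal R) (s : Finset (Ideal R))
    (hs : ∀ p ∈ s, p.IsPrime) (h : ∀ p ∈ s, ¬ (Ideal.span {f} ⊔ J ≤ p)) :
    ∃ y ∈ J, ∀ p ∈ s, f + y ∉ p := by
  classical
  induction s using Finset.strongInduction with
  | H s ih =>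
    rcases s.eq_empty_or_nonempty with rfl | hne
    · exact ⟨0, J.zero_mem, by simp⟩
    obtain ⟨m, hm, hmin⟩ := s.exists_minimal hne
    obtain ⟨y, hy, hyp⟩ := ih (s.erase m) (Finset.erase_ssubset hm)
      (fun p hp => hs p (Finset.mem_of_mem_erase hp))
      (fun p hp => h p (Finset.mem_of_mem_erase hp))
    by_cases hfm : f + y ∈ m
    · have hmp : m.IsPrime := hs m hm
      have hJ : ¬ J ≤ m := by
        intro hJm
        apply h m hm
        rw [sup_le_iff]
        refine ⟨?_, hJm⟩
        rw [Ideal.span_singleton_le_iff_mem]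
        have := m.sub_mem hfm (hJm hy)
        simpa using this
      obtain ⟨j, hj, hjm⟩ := Set.not_subset.1 hJ
      have hz : ¬ ((s.erase m).inf id ≤ m) := by
        intro hle
        obtain ⟨p, hp, hpm⟩ := (Ideal.IsPrime.inf_le' hmp).1 hle
        have hps := Finset.mem_of_mem_erase hp
        have : m ≤ p := hmin hps hpm
        exact (Finset.ne_of_mem_erase hp) (le_antisymm hpm this)
      obtain ⟨z, hz1, hz2⟩ := Set.not_subset.1 hz
      have hz1' : ∀ p ∈ s.erase m, z ∈ p := by
        intro p hp
        exact (Finset.inf_le (f := id) hp : (s.erase m).inf id ≤ p) hz1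
      refine ⟨y + j * z, J.add_mem hy (J.mul_mem_right _ hj), fun p hp => ?_⟩
      by_cases hpm : p = m
      · subst hpm
        intro hmem
        have h1 : j * z ∈ p := by
          have := p.sub_mem hmem hfm
          simpa [add_assoc] using this
        rcases hmp.mem_or_mem h1 with h2 | h2
        · exact hjm h2
        · exact hz2 h2
      · have hp' : p ∈ s.erase m := Finset.mem_erase.2 ⟨hpm, hp⟩
        intro hmem
        apply hyp p hp'
        have h1 := p.sub_mem hmem (p.mul_mem_left j (hz1' p hp'))
        rwa [← add_assoc, add_sub_cancel_right] at h1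
    · refine ⟨y, hy, fun p hp => ?_⟩
      by_cases hpm : p = m
      · subst hpm
        exact hfm
      · exact hyp p (Finset.mem_erase.2 ⟨hpm, hp⟩)

theorem smul_top_quot_lt {R : Type u} [CommRing R] (M : Type u) [AddCommGroup M]
    [Module R M] (I : Ideal R) (hI : I • (⊤ : Submodule R M) < ⊤) (x : R) (hx : x ∈ I) :
    I • (⊤ : Submodule R (QuotSMulTop x M)) < ⊤ := by
  refine lt_of_le_of_ne le_top ?_
  intro eq
  refine absurd (congrArg (Submodule.comap (Submodule.mkQ _)) eq) ?_
  simpa [Submodule.comap_smul_top_of_surjective I _ (Submodule.mkQ_surjective _),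
    Submodule.smul_mono_left ((Ideal.span_singleton_le_iff_mem I).mpr hx),
    ← Submodule.ideal_span_singleton_smul] using hI.ne

/-- Exchange: a regular element `x ∈ I` can be the first element of a regular sequence in `I` of
any length for which such sequences exist. -/
theorem exchange {R : Type u} [CommRing R] [IsNoetherianRing R] (M : Type u) [AddCommGroup M]
    [Module R M] [Module.Finite R M] (I : Ideal R) (hI : I • (⊤ : Submodule R M) < ⊤) (n : ℕ)
    (h : ∃ rs : List R, rs.length = n + 1 ∧ (∀ r ∈ rs, r ∈ I) ∧ IsRegular M rs)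
    (x : R) (hx : x ∈ I) (hreg : IsSMulRegular M x) :
    ∃ rs : List R, rs.length = n ∧ (∀ r ∈ rs, r ∈ I) ∧ IsRegular (QuotSMulTop x M) rs := by
  have h2 := ((ModuleCat.exists_isRegular_tfae I (n + 1) (ModuleCat.of R M) hI).out 3 1).1 h
  have hI' := smul_top_quot_lt M I hI x hx
  refine ((ModuleCat.exists_isRegular_tfae I n (ModuleCat.of R (QuotSMulTop x M)) hI').out 1 3).1 ?_
  intro i hi
  have zero1 := AddCommGrpCat.isZero_of_iff_subsingleton.mpr (h2 i (by omega))
  have zero2 := AddCommGrpCat.isZero_of_iff_subsingleton.mpr (h2 (i + 1) (by omega))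
  exact AddCommGrpCat.subsingleton_of_isZero <| ShortComplex.Exact.isZero_of_both_zeros
    ((Ext.covariant_sequence_exact₃' _
      (IsSMulRegular.smulShortComplex_shortExact (M := ModuleCat.of R M) hreg)) i (i + 1) rfl)
    (zero1.eq_zero_of_src _) (zero2.eq_zero_of_tgt _)

theorem replace_list {R : Type u} [CommRing R] (x : R) (I' : Ideal R) (rs : List R)
    (h : ∀ r ∈ rs, r ∈ Ideal.span {x} ⊔ I') :
    ∃ rs' : List R, (∀ r ∈ rs', r ∈ I') ∧
      rs'.map (Ideal.Quotient.mk (Ideal.span {x})) =
        rs.map (Ideal.Quotient.mk (Ideal.span {x})) := by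
  induction rs with
  | nil => exact ⟨[], by simp, rfl⟩
  | cons r rs ih =>
    obtain ⟨rs', h1, h2⟩ := ih (fun r hr => h r (List.mem_cons_of_mem _ hr))
    obtain ⟨a, ha, b, hb, hab⟩ := Submodule.mem_sup.1 (h r List.mem_cons_self)
    refine ⟨b :: rs', ?_, ?_⟩
    · intro r' hr'
      rcases List.mem_cons.1 hr' with rfl | hr'
      · exact hb
      · exact h1 r' hr'
    · rw [List.map_cons, List.map_cons, h2, ← hab, map_add,
        Ideal.Quotient.eq_zero_iff_mem.2 ha, zero_add]

/-- If `(fs) + K` contains a regular sequence of length `fs.length`, then `fs` can be replaced by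
a regular sequence of the same length. -/
theorem gen_regular {R : Type u} [CommRing R] [IsNoetherianRing R] (K : Ideal R) (n : ℕ) :
    ∀ (M : Type u) [AddCommGroup M] [Module R M] [Module.Finite R M] (fs : List R)
      (_ : fs.length = n) (_ : (Ideal.ofList fs ⊔ K) • (⊤ : Submodule R M) < ⊤)
      (_ : ∃ rs : List R, rs.length = n ∧ (∀ r ∈ rs, r ∈ Ideal.ofList fs ⊔ K) ∧ IsRegular M rs),
      ∃ xs : List R, xs.length = n ∧ Ideal.ofList xs ⊔ K = Ideal.ofList fs ⊔ K ∧
        IsRegular M xs := by
  induction n with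
  | zero =>
    rintro M _ _ _ fs hfs hI ⟨rs, hrs, -, hreg⟩
    rw [List.length_eq_zero_iff] at hfs hrs
    subst hfs hrs
    exact ⟨[], rfl, rfl, hreg⟩
  | succ n ih =>
    rintro M _ _ _ fs hfs hI ⟨rs, hrs, hmem, hreg⟩
    match fs, hfs, rs, hrs with
    | f :: fs', hfs, a :: rs1, hrs =>
      rw [List.length_cons, Nat.add_right_cancel_iff] at hfs hrs
      have hIeq : Ideal.ofList (f :: fs') ⊔ K = Ideal.span {f} ⊔ (Ideal.ofList fs' ⊔ K) := by
        rw [Ideal.ofList_cons, sup_assoc]
      have ha : IsSMulRegular M a := ((isRegular_cons_iff _ _ _).1 hreg).1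
      have hunion := biUnion_associatedPrimes_eq_compl_regular R M
      have hfin : (associatedPrimes R M).Finite := associatedPrimes.finite R M
      obtain ⟨y, hy, hyp⟩ := coset_avoid f (Ideal.ofList fs' ⊔ K) hfin.toFinset
        (fun p hp => (hfin.mem_toFinset.1 hp).isPrime) (by
          intro p hp hle
          have hap : a ∈ p := hle (by rw [← hIeq]; exact hmem a List.mem_cons_self)
          have : a ∈ ⋃ p ∈ associatedPrimes R M, (p : Set R) :=
            Set.mem_biUnion (hfin.mem_toFinset.1 hp) hap
          rw [hunion] at this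
          exact this ha)
      have hx : IsSMulRegular M (f + y) := by
        by_contra hcon
        have : f + y ∈ ⋃ p ∈ associatedPrimes R M, (p : Set R) := by
          rw [hunion]
          exact hcon
        obtain ⟨p, hp, hfp⟩ := Set.mem_iUnion₂.1 this
        exact hyp p (hfin.mem_toFinset.2 hp) hfp
      have hIx : Ideal.span {f + y} ⊔ (Ideal.ofList fs' ⊔ K) =
          Ideal.span {f} ⊔ (Ideal.ofList fs' ⊔ K) := by
        apply le_antisymm
        · refine sup_le ?_ le_sup_right
          rw [Ideal.span_singleton_le_iff_mem]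
          exact Ideal.add_mem _ (Ideal.mem_sup_left (Ideal.mem_span_singleton_self f))
            (Ideal.mem_sup_right hy)
        · refine sup_le ?_ le_sup_right
          rw [Ideal.span_singleton_le_iff_mem]
          have h5 : (f + y) - y ∈ Ideal.span {f + y} ⊔ (Ideal.ofList fs' ⊔ K) :=
            Ideal.sub_mem _ (Ideal.mem_sup_left (Ideal.mem_span_singleton_self _))
              (Ideal.mem_sup_right hy)
          rwa [add_sub_cancel_right] at h5
      obtain ⟨rs2, hlen2, hmem2, hreg2⟩ := exchange M (Ideal.ofList (f :: fs') ⊔ K) hI n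
        ⟨a :: rs1, by rw [List.length_cons, hrs], hmem, hreg⟩ (f + y) (by
          rw [hIeq, ← hIx]
          exact Ideal.mem_sup_left (Ideal.mem_span_singleton_self _)) hx
      obtain ⟨rs3, hmem3, hmap3⟩ := replace_list (f + y) (Ideal.ofList fs' ⊔ K) rs2 (by
        intro r hr
        rw [hIx, ← hIeq]
        exact hmem2 r hr)
      have hlen3 : rs3.length = n := by
        have := congrArg List.length hmap3
        rwa [List.length_map, List.length_map, hlen2] at this
      have hreg3 : IsRegular (QuotSMulTop (f + y) M) rs3 := by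
        have h1 : IsRegular M ((f + y) :: rs2) := (isRegular_cons_iff _ _ _).2 ⟨hx, hreg2⟩
        rw [isRegular_cons_iff', ← hmap3, ← isRegular_cons_iff'] at h1
        exact ((isRegular_cons_iff _ _ _).1 h1).2
      have hmemI : f + y ∈ Ideal.ofList (f :: fs') ⊔ K := by
        rw [hIeq, ← hIx]
        exact Ideal.mem_sup_left (Ideal.mem_span_singleton_self _)
      have hI' : (Ideal.ofList fs' ⊔ K) • (⊤ : Submodule R (QuotSMulTop (f + y) M)) < ⊤ := by
        refine lt_of_le_of_lt (Submodule.smul_mono_left ?_)
          (smul_top_quot_lt M (Ideal.ofList (f :: fs') ⊔ K) hI (f + y) hmemI)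
        rw [hIeq]
        exact le_sup_right
      obtain ⟨xs, hxs1, hxs2, hxs3⟩ := ih (QuotSMulTop (f + y) M) fs' hfs hI'
        ⟨rs3, hlen3, hmem3, hreg3⟩
      refine ⟨(f + y) :: xs, by rw [List.length_cons, hxs1], ?_,
        (isRegular_cons_iff _ _ _).2 ⟨hx, hxs3⟩⟩
      rw [Ideal.ofList_cons, sup_assoc, hxs2, hIx, hIeq]

end BEHG
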