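import Mathlib

/-!
# Core inequality

Complexes of modules `C : ℕ → Type v` with differentials `d i : C (i+1) → C i` over a commutative
ring `B`.  `lam d g i` is the length of `H_i / g H_i`.
If `x` is a nonzerodivisor on all `C i` and null-homotopic on `C`, then
`lam (C / x C) (i+1) ≥ lam C (i+1) + lam C i`.
-/

set_option autoImplicit false

namespace BEHG

open RingTheory.Sequence Pointwise

universe u v

variable {B : Type u} [CommRing B]

/-- cycles of a complex -/
def Zc {C : ℕ → Type v} [∀ i, AddCommGroup (C i)] [∀ i, Module B (C i)]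
    (d : ∀ i, C (i + 1) →ₗ[B] C i) : ∀ i, Submodule B (C i)
  | 0 => ⊤
  | (i + 1) => LinearMap.ker (d i)

/-- length of `V / (U ∩ V)` -/
noncomputable def len {X : Type v} [AddCommGroup X] [Module B X] (U V : Submodule B X) : ℕ∞ :=
  Module.length B (V ⧸ U.comap V.subtype)

/-- length of `H_i / g H_i` -/
noncomputable def lam {C : ℕ → Type v} [∀ i, AddCommGroup (C i)] [∀ i, Module B (C i)]
    (d : ∀ i, C (i + 1) →ₗ[B] C i) (g : B) (i : ℕ) : ℕ∞ :=
  len (LinearMap.range (d i) ⊔ g • Zc d i) (Zc d i)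

/-- If `b` is surjective and `ker a ≤ ker b`, the target of `b` is at most as long as the target
of `a`. -/
theorem length_le_of_ker_le {Q P T : Type*} [AddCommGroup Q] [Module B Q] [AddCommGroup P]
    [Module B P] [AddCommGroup T] [Module B T] (a : Q →ₗ[B] P) (b : Q →ₗ[B] T)
    (hb : Function.Surjective b) (h : LinearMap.ker a ≤ LinearMap.ker b) :
    Module.length B T ≤ Module.length B P := by
  have h1 : Function.Surjective ((LinearMap.ker a).liftQ b h) := by
    intro t
    obtain ⟨q, rfl⟩ := hb t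
    exact ⟨Submodule.Quotient.mk q, by simp⟩
  have h2 : Function.Injective ((LinearMap.ker a).liftQ a le_rfl) := by
    rw [← LinearMap.ker_eq_bot]
    exact Submodule.ker_liftQ_eq_bot _ _ _ le_rfl
  exact (Module.length_le_of_surjective _ h1).trans (Module.length_le_of_injective _ h2)

/-- the map `Q → V / (U ∩ V)` -/
def toV {Q X : Type*} [AddCommGroup Q] [Module B Q] [AddCommGroup X] [Module B X]
    (U V : Submodule B X) (a : Q →ₗ[B] X) (ha : ∀ q, a q ∈ V) :
    Q →ₗ[B] (V ⧸ U.comap V.subtype) :=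
  (U.comap V.subtype).mkQ ∘ₗ (a.codRestrict V ha)

theorem toV_eq_zero {Q X : Type*} [AddCommGroup Q] [Module B Q] [AddCommGroup X] [Module B X]
    (U V : Submodule B X) (a : Q →ₗ[B] X) (ha : ∀ q, a q ∈ V) (q : Q) :
    toV U V a ha q = 0 ↔ a q ∈ U := by
  simp [toV]

theorem len_add_le {Q X Y Y' : Type v} [AddCommGroup Q] [Module B Q] [AddCommGroup X]
    [Module B X] [AddCommGroup Y] [Module B Y] [AddCommGroup Y'] [Module B Y']
    (a : Q →ₗ[B] X) (b : Q →ₗ[B] Y) (b' : Q →ₗ[B] Y')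
    (U V : Submodule B X) (U1 V1 : Submodule B Y) (U2 V2 : Submodule B Y')
    (ha : ∀ q, a q ∈ V) (hb : ∀ q, b q ∈ V1) (hb' : ∀ q, b' q ∈ V2)
    (hs : ∀ y ∈ V1, ∀ y' ∈ V2, ∃ q, b q = y ∧ b' q = y')
    (hk : ∀ q, a q ∈ U → b q ∈ U1 ∧ b' q ∈ U2) :
    len U1 V1 + len U2 V2 ≤ len U V := by
  unfold len
  rw [← Module.length_prod]
  refine length_le_of_ker_le (toV U V a ha) ((toV U1 V1 b hb).prod (toV U2 V2 b' hb')) ?_ ?_
  · rintro ⟨y, y'⟩
    obtain ⟨⟨y, hy⟩, rfl⟩ := Submodule.Quotient.mk_surjective _ y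
    obtain ⟨⟨y', hy'⟩, rfl⟩ := Submodule.Quotient.mk_surjective _ y'
    obtain ⟨q, rfl, rfl⟩ := hs y hy y' hy'
    exact ⟨q, rfl⟩
  · intro q hq
    rw [LinearMap.mem_ker, toV_eq_zero] at hq
    obtain ⟨h1, h2⟩ := hk q hq
    rw [LinearMap.mem_ker]
    exact Prod.ext ((toV_eq_zero _ _ _ _ _).2 h1) ((toV_eq_zero _ _ _ _ _).2 h2)

section Step

variable {C : ℕ → Type v} [∀ i, AddCommGroup (C i)] [∀ i, Module B (C i)]
  (d : ∀ i, C (i + 1) →ₗ[B] C i)

/-- `h` is a null homotopy of multiplication by `x` -/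
structure Hty (x : B) (h : ∀ i, C i →ₗ[B] C (i + 1)) : Prop where
  zero : ∀ c : C 0, d 0 (h 0 c) = x • c
  succ : ∀ i (c : C (i + 1)), d (i + 1) (h (i + 1) c) + h i (d i c) = x • c

variable {d}

theorem Hty.cyc {x : B} {h : ∀ i, C i →ₗ[B] C (i + 1)} (H : Hty d x h) (i : ℕ) (w : C i)
    (hw : w ∈ Zc d i) : d i (h i w) = x • w := by
  cases i with
  | zero => exact H.zero w
  | succ i =>
    have h1 := H.succ i w
    have h2 : d i w = 0 := hw
    rw [h2, map_zero, add_zero] at h1
    exact h1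

theorem range_le_Zc (hd : ∀ i (c : C (i + 1 + 1)), d i (d (i + 1) c) = 0) (i : ℕ) :
    LinearMap.range (d i) ≤ Zc d i := by
  cases i with
  | zero => exact le_top
  | succ i =>
    rintro _ ⟨c, rfl⟩
    exact hd i c

theorem mem_Zc_of_smul (hd : ∀ i (c : C (i + 1 + 1)), d i (d (i + 1) c) = 0) {x : B}
    (hx : ∀ i, IsSMulRegular (C i) x) (i : ℕ) (z : C (i + 1)) (w : C i) (h : d i z = x • w) :
    w ∈ Zc d i := by
  cases i with
  | zero => exact Submodule.mem_top
  | succ i =>
    change d i w = 0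
    have h1 : x • d i w = x • 0 := by rw [← map_smul, ← h, hd, smul_zero]
    exact hx i h1

/-- the quotient complex -/
def qd (d : ∀ i, C (i + 1) →ₗ[B] C i) (x : B) (i : ℕ) :
    QuotSMulTop x (C (i + 1)) →ₗ[B] QuotSMulTop x (C i) :=
  QuotSMulTop.map x (d i)

theorem qd_mk (x : B) (i : ℕ) (c : C (i + 1)) :
    qd d x i (Submodule.Quotient.mk c) = Submodule.Quotient.mk (d i c) := rfl

theorem mk_eq_iff (x : B) {X : Type v} [AddCommGroup X] [Module B X] (c c' : X) :
    (Submodule.Quotient.mk c : QuotSMulTop x X) = Submodule.Quotient.mk c' ↔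
      ∃ v : X, c = c' + x • v := by
  rw [Submodule.Quotient.eq, Submodule.mem_smul_pointwise_iff_exists]
  constructor
  · rintro ⟨v, -, hv⟩
    exact ⟨v, by rw [hv]; abel⟩
  · rintro ⟨v, hv⟩
    exact ⟨v, Submodule.mem_top, by rw [hv]; abel⟩

theorem mem_sup_range {X : Type v} [AddCommGroup X] [Module B X] {Y : Type v} [AddCommGroup Y]
    [Module B Y] (f : Y →ₗ[B] X) (g : B) (Z : Submodule B X) (c : X) :
    c ∈ LinearMap.range f ⊔ g • Z ↔ ∃ y, ∃ z ∈ Z, c = f y + g • z := by
  rw [Submodule.mem_sup]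
  constructor
  · rintro ⟨_, ⟨y, rfl⟩, b, hb, rfl⟩
    obtain ⟨z, hz, rfl⟩ := Submodule.mem_smul_pointwise_iff_exists _ _ _ |>.1 hb
    exact ⟨y, z, hz, rfl⟩
  · rintro ⟨y, z, hz, rfl⟩
    exact ⟨f y, ⟨y, rfl⟩, g • z, Submodule.smul_mem_pointwise_smul _ _ _ hz, rfl⟩

theorem lam_zero_le (x g : B) {h : ∀ i, C i →ₗ[B] C (i + 1)} (H : Hty d x h) :
    lam d g 0 ≤ lam (C := fun i => QuotSMulTop x (C i)) (qd d x) g 0 := by
  have key := len_add_le (B := B) (Q := C 0) (X := QuotSMulTop x (C 0)) (Y := C 0)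
    (Y' := PUnit.{v + 1}) (Submodule.mkQ _) LinearMap.id 0
    (LinearMap.range (qd d x 0) ⊔ g • Zc (C := fun i => QuotSMulTop x (C i)) (qd d x) 0)
    (Zc (C := fun i => QuotSMulTop x (C i)) (qd d x) 0)
    (LinearMap.range (d 0) ⊔ g • Zc d 0) (Zc d 0) ⊤ ⊤ (fun q => Submodule.mem_top)
    (fun q => Submodule.mem_top) (fun q => Submodule.mem_top)
    (fun y _ y' _ => ⟨y, rfl, rfl⟩) ?_
  · exact le_trans le_self_add key
  · intro q hq
    refine ⟨?_, Submodule.mem_top⟩
    rw [mem_sup_range] at hq ⊢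
    obtain ⟨y, z, -, hyz⟩ := hq
    obtain ⟨y, rfl⟩ := Submodule.Quotient.mk_surjective _ y
    obtain ⟨z, rfl⟩ := Submodule.Quotient.mk_surjective _ z
    rw [qd_mk, ← Submodule.Quotient.mk_smul, ← Submodule.Quotient.mk_add,
      Submodule.mkQ_apply] at hyz
    obtain ⟨v, hv⟩ := (mk_eq_iff x _ _).1 hyz
    refine ⟨y + h 0 v, z, Submodule.mem_top, ?_⟩
    rw [map_add, H.zero, LinearMap.id_apply, hv]
    abel

theorem lam_succ_le (hd : ∀ i (c : C (i + 1 + 1)), d i (d (i + 1) c) = 0) (x g : B)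
    (hx : ∀ i, IsSMulRegular (C i) x) {h : ∀ i, C i →ₗ[B] C (i + 1)} (H : Hty d x h) (i : ℕ) :
    lam d g (i + 1) + lam d g i ≤ lam (C := fun i => QuotSMulTop x (C i)) (qd d x) g (i + 1) := by
  let φ : (C (i + 1) × C i) →ₗ[B] C i :=
    (d i) ∘ₗ LinearMap.fst B _ _ - x • LinearMap.snd B _ _
  have hφ : ∀ q : LinearMap.ker φ, d i q.1.1 = x • q.1.2 := by
    intro q
    have h1 : φ q.1 = 0 := q.2
    exact sub_eq_zero.1 h1
  have hw : ∀ q : LinearMap.ker φ, q.1.2 ∈ Zc d i := fun q => mem_Zc_of_smul hd hx i _ _ (hφ q)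
  refine len_add_le (B := B) (Q := LinearMap.ker φ)
    ((Submodule.mkQ (x • (⊤ : Submodule B (C (i + 1))))) ∘ₗ LinearMap.fst B _ _ ∘ₗ
      (LinearMap.ker φ).subtype)
    ((LinearMap.fst B _ _ - (h i) ∘ₗ LinearMap.snd B _ _) ∘ₗ (LinearMap.ker φ).subtype)
    (LinearMap.snd B _ _ ∘ₗ (LinearMap.ker φ).subtype) _ _ _ _ _ _ ?_ ?_ hw ?_ ?_
  · intro q
    change qd d x i (Submodule.Quotient.mk q.1.1) = 0
    rw [qd_mk, hφ q, ← Submodule.Quotient.mk_zero, mk_eq_iff]
    exact ⟨q.1.2, by rw [zero_add]⟩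
  · intro q
    change d i (q.1.1 - h i q.1.2) = 0
    rw [map_sub, hφ q, H.cyc i _ (hw q), sub_self]
  · intro y hy y' hy'
    have hy1 : d i y = 0 := hy
    refine ⟨⟨(y + h i y', y'), ?_⟩, ?_, rfl⟩
    · rw [LinearMap.mem_ker]
      simp [φ, hy1, H.cyc i _ hy']
    · simp
  · intro q hq
    have hq' : (Submodule.Quotient.mk q.1.1 : QuotSMulTop x (C (i + 1))) ∈
      LinearMap.range (qd d x (i + 1)) ⊔
        g • Zc (C := fun i => QuotSMulTop x (C i)) (qd d x) (i + 1) := hq
    rw [mem_sup_range] at hq'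
    obtain ⟨u, z, hz, huz⟩ := hq'
    obtain ⟨u, rfl⟩ := Submodule.Quotient.mk_surjective _ u
    obtain ⟨z, rfl⟩ := Submodule.Quotient.mk_surjective _ z
    have hz' : qd d x i (Submodule.Quotient.mk z) = 0 := hz
    rw [qd_mk, ← Submodule.Quotient.mk_zero, mk_eq_iff] at hz'
    obtain ⟨w1, hw1⟩ := hz'
    rw [zero_add] at hw1
    have hw1c : w1 ∈ Zc d i := mem_Zc_of_smul hd hx i _ _ hw1
    rw [qd_mk, ← Submodule.Quotient.mk_smul, ← Submodule.Quotient.mk_add, mk_eq_iff] at huz
    obtain ⟨v, hv⟩ := huz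
    have hw2 : q.1.2 = d i v + g • w1 := by
      apply hx i
      change x • q.1.2 = x • (d i v + g • w1)
      rw [← hφ q, hv, map_add, map_add, hd, zero_add, map_smul, map_smul, hw1, smul_add,
        smul_comm g x w1, add_comm]
    constructor
    · change q.1.1 - h i q.1.2 ∈ _
      rw [mem_sup_range]
      refine ⟨u + h (i + 1) v, z - h i w1, ?_, ?_⟩
      · change d i (z - h i w1) = 0
        rw [map_sub, hw1, H.cyc i _ hw1c, sub_self]
      · have h3 := H.succ i v
        rw [hw2, hv, map_add, map_add, map_smul, smul_sub, ← h3]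
        abel
    · change q.1.2 ∈ _
      rw [mem_sup_range]
      exact ⟨v, w1, hw1c, hw2⟩

/-- null homotopies descend to the quotient complex -/
theorem Hty.quot (x : B) {y : B} {h : ∀ i, C i →ₗ[B] C (i + 1)} (H : Hty d y h) :
    Hty (C := fun i => QuotSMulTop x (C i)) (qd d x) y (fun i => QuotSMulTop.map x (h i)) := by
  constructor
  · intro c
    obtain ⟨c, rfl⟩ := Submodule.Quotient.mk_surjective _ c
    change (Submodule.Quotient.mk (d 0 (h 0 c)) : QuotSMulTop x (C 0)) = _
    rw [H.zero]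
    rfl
  · intro i c
    obtain ⟨c, rfl⟩ := Submodule.Quotient.mk_surjective _ c
    change (Submodule.Quotient.mk (d (i + 1) (h (i + 1) c) + h i (d i c)) :
      QuotSMulTop x (C (i + 1))) = _
    rw [H.succ]
    rfl

end Step

section Final

/-- lower bound for `lam d g 0` -/
theorem le_lam_zero {C : ℕ → Type v} [∀ i, AddCommGroup (C i)] [∀ i, Module B (C i)]
    (d : ∀ i, C (i + 1) →ₗ[B] C i) (g : B) {T : Type*} [AddCommGroup T] [Module B T]
    (b : C 0 →ₗ[B] T) (hb : Function.Surjective b) (h1 : ∀ y, b (d 0 y) = 0)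
    (h2 : ∀ z, b (g • z) = 0) : Module.length B T ≤ lam d g 0 := by
  have hid : ∀ c : C 0, (LinearMap.id : C 0 →ₗ[B] C 0) c ∈ Zc d 0 :=
    fun _ => Submodule.mem_top
  unfold lam len
  refine length_le_of_ker_le (toV (LinearMap.range (d 0) ⊔ g • Zc d 0) (Zc d 0)
    LinearMap.id hid) b hb ?_
  intro c hc
  have hc' := (toV_eq_zero _ _ _ _ _).1 (LinearMap.mem_ker.1 hc)
  rw [LinearMap.id_apply, mem_sup_range] at hc'
  obtain ⟨y, z, -, rfl⟩ := hc'
  rw [LinearMap.mem_ker, map_add, h1, h2, add_zero]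

/-- length of `X / gX` equals the length of the kernel of `g`, for `X` of finite length -/
theorem length_quot_eq_ker (X : Type v) [AddCommGroup X] [Module B X]
    (hX : Module.length B X ≠ ⊤) (g : B) :
    Module.length B (X ⧸ (g • (⊤ : Submodule B X))) =
      Module.length B (LinearMap.ker (LinearMap.lsmul B X g)) := by
  have h1 := Module.length_eq_add_of_exact (LinearMap.ker (LinearMap.lsmul B X g)).subtype
    (LinearMap.lsmul B X g).rangeRestrict (Submodule.subtype_injective _)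
    (LinearMap.surjective_rangeRestrict _) (by
      rw [LinearMap.exact_iff, LinearMap.ker_rangeRestrict, Submodule.range_subtype])
  have h2 := Module.length_eq_add_of_exact (LinearMap.range (LinearMap.lsmul B X g)).subtype
    (LinearMap.range (LinearMap.lsmul B X g)).mkQ (Submodule.subtype_injective _)
    (Submodule.mkQ_surjective _) (by
      rw [LinearMap.exact_iff, Submodule.ker_mkQ, Submodule.range_subtype])
  have h3 : LinearMap.range (LinearMap.lsmul B X g) = g • (⊤ : Submodule B X) := by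
    ext z
    rw [Submodule.mem_smul_pointwise_iff_exists]
    constructor
    · rintro ⟨w, rfl⟩
      exact ⟨w, Submodule.mem_top, rfl⟩
    · rintro ⟨w, -, rfl⟩
      exact ⟨w, rfl⟩
  rw [h3] at h1 h2
  have h4 : Module.length B (g • (⊤ : Submodule B X) : Submodule B X) ≠ ⊤ := by
    intro h
    rw [h, top_add] at h2
    exact hX h2
  rw [h1, add_comm] at h2
  exact (ENat.add_right_injective_of_ne_top h4 h2).symm

theorem lam_le_of_length_ne_top {C : ℕ → Type v} [∀ i, AddCommGroup (C i)]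
    [∀ i, Module B (C i)] (d : ∀ i, C (i + 1) →ₗ[B] C i) (g : B) (i : ℕ)
    (hC : Module.length B (C i) ≠ ⊤) :
    lam d g i ≤ Module.length B (C i ⧸ (g • (⊤ : Submodule B (C i)))) := by
  have hZ : Module.length B (Zc d i) ≠ ⊤ := by
    intro h
    have := Module.length_le_of_injective (Zc d i).subtype (Submodule.subtype_injective _)
    rw [h, top_le_iff] at this
    exact hC this
  calc lam d g i ≤ Module.length B (Zc d i ⧸ (g • (⊤ : Submodule B (Zc d i)))) := by
        unfold lam len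
        refine length_le_of_ker_le (Submodule.mkQ _) (Submodule.mkQ _)
          (Submodule.mkQ_surjective _) ?_
        rw [Submodule.ker_mkQ, Submodule.ker_mkQ]
        intro z hz
        obtain ⟨w, -, rfl⟩ := (Submodule.mem_smul_pointwise_iff_exists _ _ _).1 hz
        rw [Submodule.mem_comap]
        refine Submodule.mem_sup_right ?_
        exact Submodule.smul_mem_pointwise_smul _ _ _ w.2
    _ = _ := length_quot_eq_ker _ hZ g
    _ ≤ Module.length B (LinearMap.ker (LinearMap.lsmul B (C i) g)) := by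
        refine Module.length_le_of_injective (LinearMap.restrict (Zc d i).subtype
          (p := LinearMap.ker (LinearMap.lsmul B (Zc d i) g))
          (q := LinearMap.ker (LinearMap.lsmul B (C i) g)) ?_) ?_
        · intro z hz
          have h1 : g • z = 0 := hz
          change g • (z : C i) = 0
          rw [← Submodule.coe_smul, h1, Submodule.coe_zero]
        · intro a b hab
          have h2 := Subtype.ext_iff.1 hab
          exact Subtype.ext (Subtype.ext h2)
    _ = _ := (length_quot_eq_ker _ hC g).symm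

/-- the key inequality -/
theorem key (g : B) (L : ℕ∞) (rs : List B) : ∀ (C : ℕ → Type v) [∀ i, AddCommGroup (C i)]
    [∀ i, Module B (C i)] (d : ∀ i, C (i + 1) →ₗ[B] C i)
    (_ : ∀ i (c : C (i + 1 + 1)), d i (d (i + 1) c) = 0)
    (_ : ∀ i, IsWeaklyRegular (C i) rs)
    (_ : ∀ x ∈ rs, ∃ h : ∀ i, C i →ₗ[B] C (i + 1), Hty d x h)
    (n0 : ℕ) (_ : ∀ i, (n0.choose i : ℕ∞) * L ≤ lam d g i) (i : ℕ)
    (_ : Module.length B (C i ⧸ (Ideal.ofList rs • (⊤ : Submodule B (C i)))) ≠ ⊤),
    ((n0 + rs.length).choose i : ℕ∞) * L ≤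
      Module.length B (C i ⧸ (Ideal.ofList (rs ++ [g]) • (⊤ : Submodule B (C i)))) := by
  induction rs with
  | nil =>
    intro C _ _ d hd _ _ n0 hL i hfin
    have hC : Module.length B (C i) ≠ ⊤ := by
      rw [Ideal.ofList_nil, Submodule.bot_smul] at hfin
      rwa [(Submodule.quotEquivOfEqBot _ rfl).length_eq] at hfin
    refine (hL i).trans ((lam_le_of_length_ne_top d g i hC).trans (le_of_eq ?_))
    refine (Submodule.quotEquivOfEq _ _ ?_).length_eq
    rw [List.nil_append, Ideal.ofList_singleton, Submodule.ideal_span_singleton_smul]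
  | cons x rs ih =>
    intro C _ _ d hd hreg hh n0 hL i hfin
    obtain ⟨h, H⟩ := hh x (List.mem_cons_self)
    have hx : ∀ i, IsSMulRegular (C i) x := fun i => ((isWeaklyRegular_cons_iff _ _ _).1 (hreg i)).1
    have e1 := (Submodule.quotOfListConsSMulTopEquivQuotSMulTopInner (C i) x rs).length_eq
    have e2 := (Submodule.quotOfListConsSMulTopEquivQuotSMulTopInner (C i) x (rs ++ [g])).length_eq
    rw [e1] at hfin
    have := ih (fun i => QuotSMulTop x (C i)) (qd d x) ?_
      (fun i => ((isWeaklyRegular_cons_iff _ _ _).1 (hreg i)).2) ?_ (n0 + 1) ?_ i hfin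
    · rw [List.cons_append, e2, List.length_cons]
      rwa [show n0 + (rs.length + 1) = n0 + 1 + rs.length by ring]
    · intro i c
      obtain ⟨c, rfl⟩ := Submodule.Quotient.mk_surjective _ c
      change (Submodule.Quotient.mk (d i (d (i + 1) c)) : QuotSMulTop x (C i)) = 0
      rw [hd, Submodule.Quotient.mk_zero]
    · intro y hy
      obtain ⟨h', H'⟩ := hh y (List.mem_cons_of_mem _ hy)
      exact ⟨_, H'.quot x⟩
    · intro j
      cases j with
      | zero =>
        refine le_trans ?_ (lam_zero_le x g H)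
        simpa using hL 0
      | succ j =>
        refine le_trans ?_ (lam_succ_le hd x g hx H j)
        rw [Nat.choose_succ_succ, Nat.cast_add, add_mul, add_comm]
        exact add_le_add (hL (j + 1)) (hL j)

end Final

end BEHG
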