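import Pool.Agent.BEHG.Core

/-!
# Null homotopies on projective resolutions, localisation
-/

set_option autoImplicit false

namespace BEHG

open RingTheory.Sequence Pointwise

universe u v

section Hom

variable {R : Type u} [CommRing R] {M : Type v} [AddCommGroup M] [Module R M]
  {P : ℕ → Type v} [∀ i, AddCommGroup (P i)] [∀ i, Module R (P i)]
  [∀ i, Module.Projective R (P i)]
  (d : ∀ i, P (i + 1) →ₗ[R] P i) (ε : P 0 →ₗ[R] M)

/-- multiplication by an element of the annihilator is null homotopic on a projective
resolution -/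
theorem exists_hty (h0 : LinearMap.range (d 0) = LinearMap.ker ε)
    (h1 : ∀ i, LinearMap.range (d (i + 1)) = LinearMap.ker (d i)) (x : R)
    (hx : ∀ m : M, x • m = 0) : ∃ h : ∀ i, P i →ₗ[R] P (i + 1), Hty d x h := by
  have hd : ∀ i (c : P (i + 1 + 1)), d i (d (i + 1) c) = 0 := by
    intro i c
    have : d (i + 1) c ∈ LinearMap.ker (d i) := by
      rw [← h1 i]
      exact ⟨c, rfl⟩
    exact this
  have start : ∃ h : P 0 →ₗ[R] P 1, ∀ c, d 0 (h c) = x • c := by
    have hmem : ∀ c : P 0, (x • LinearMap.id : P 0 →ₗ[R] P 0) c ∈ LinearMap.range (d 0) := by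
      intro c
      rw [h0, LinearMap.mem_ker, LinearMap.smul_apply, map_smul, hx]
    obtain ⟨h, hh⟩ := Module.projective_lifting_property (d 0).rangeRestrict
      (LinearMap.codRestrict _ _ hmem) (LinearMap.surjective_rangeRestrict _)
    refine ⟨h, fun c => ?_⟩
    have := LinearMap.congr_fun hh c
    exact congrArg Subtype.val this
  have step : ∀ i (h : {h : P i →ₗ[R] P (i + 1) // ∀ w ∈ Zc d i, d i (h w) = x • w}),
      ∃ h' : {h : P (i + 1) →ₗ[R] P (i + 1 + 1) // ∀ w ∈ Zc d (i + 1), d (i + 1) (h w) = x • w},
        ∀ c, d (i + 1) (h'.1 c) + h.1 (d i c) = x • c := by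
    rintro i ⟨h, hh⟩
    have hmem : ∀ c : P (i + 1), (x • LinearMap.id - h ∘ₗ d i : P (i + 1) →ₗ[R] P (i + 1)) c ∈
        LinearMap.range (d (i + 1)) := by
      intro c
      rw [h1, LinearMap.mem_ker, LinearMap.sub_apply, LinearMap.smul_apply, LinearMap.comp_apply,
        map_sub, hh _ (range_le_Zc hd i ⟨c, rfl⟩), map_smul, LinearMap.id_apply, sub_self]
    obtain ⟨h', hh'⟩ := Module.projective_lifting_property (d (i + 1)).rangeRestrict
      (LinearMap.codRestrict _ _ hmem) (LinearMap.surjective_rangeRestrict _)
    have key : ∀ c, d (i + 1) (h' c) = x • c - h (d i c) := fun c =>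
      congrArg Subtype.val (LinearMap.congr_fun hh' c)
    refine ⟨⟨h', fun w hw => ?_⟩, fun c => ?_⟩
    · have hw' : d i w = 0 := hw
      rw [key, hw', map_zero, sub_zero]
    · rw [key]
      abel
  obtain ⟨h, hh⟩ := start
  choose F hF using step
  let H : ∀ i, {h : P i →ₗ[R] P (i + 1) // ∀ w ∈ Zc d i, d i (h w) = x • w} :=
    fun i => Nat.rec ⟨h, fun w _ => hh w⟩ (fun i h => F i h) i
  exact ⟨fun i => (H i).1, fun c => hh c, fun i c => hF i (H i) c⟩

end Hom

section Free

variable {B : Type u} [CommRing B] (X : Type v) [AddCommGroup X] [Module B X]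
  [Module.Free B X] [Module.Finite B X]

theorem length_quot_free [Nontrivial B] (J : Ideal B) :
    Module.length B (X ⧸ (J • (⊤ : Submodule B X))) =
      (Module.finrank B X : ℕ∞) * Module.length B (B ⧸ J) := by
  have e0 := TensorProduct.quotTensorEquivQuotSMul X J
  let b := Module.Free.chooseBasis B X
  have e1 : TensorProduct B (B ⧸ J) X ≃ₗ[B]
      TensorProduct B (B ⧸ J) (Module.Free.ChooseBasisIndex B X →₀ B) :=
    TensorProduct.congr (LinearEquiv.refl B _) b.repr
  have e2 := TensorProduct.finsuppScalarRight B B (B ⧸ J) (Module.Free.ChooseBasisIndex B X)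
  rw [← e0.length_eq, e1.length_eq, e2.length_eq, Module.length_finsupp,
    ENat.card_eq_coe_fintype_card, Module.finrank_eq_card_chooseBasisIndex]

omit [Module.Finite B X] in
theorem weaklyRegular_free (xs : List B) (h : IsWeaklyRegular B xs) :
    IsWeaklyRegular X xs := by
  have h1 : IsWeaklyRegular (TensorProduct B B X) xs := h.isWeaklyRegular_rTensor
  exact (LinearEquiv.isWeaklyRegular_congr (TensorProduct.lid B X) xs).1 h1

end Free

section Loc

theorem mk_add_same {R : Type u} [CommRing R] (S : Submonoid R) {X : Type v} [AddCommGroup X]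
    [Module R X] (a b : X) (s : S) :
    (LocalizedModule.mk a s + LocalizedModule.mk b s : LocalizedModule S X) =
      LocalizedModule.mk (a + b) s := by
  rw [LocalizedModule.mk_add_mk, ← smul_add, LocalizedModule.mk_cancel_common_left]

variable {R : Type u} [CommRing R] {M : Type v} [AddCommGroup M] [Module R M]
  {P : ℕ → Type v} [∀ i, AddCommGroup (P i)] [∀ i, Module R (P i)]
  [∀ i, Module.Projective R (P i)] [∀ i, Module.Finite R (P i)]
  (d : ∀ i, P (i + 1) →ₗ[R] P i) (ε : P 0 →ₗ[R] M)

theorem local_bound (hε : Function.Surjective ε)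
    (h0 : LinearMap.range (d 0) = LinearMap.ker ε)
    (h1 : ∀ i, LinearMap.range (d (i + 1)) = LinearMap.ker (d i))
    (q : PrimeSpectrum R) (xs : List R) (hxs : ∀ x ∈ xs, ∀ m : M, x • m = 0) (g : R)
    (hreg : IsWeaklyRegular (Localization.AtPrime q.asIdeal)
      (xs.map (algebraMap R (Localization.AtPrime q.asIdeal))))
    (hfin : Module.length (Localization.AtPrime q.asIdeal) (Localization.AtPrime q.asIdeal ⧸
      Ideal.ofList (xs.map (algebraMap R (Localization.AtPrime q.asIdeal)))) ≠ ⊤) (i : ℕ) :
    (xs.length.choose i : ℕ∞) * Module.length (Localization.AtPrime q.asIdeal)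
      (LocalizedModule q.asIdeal.primeCompl M ⧸
        ((algebraMap R (Localization.AtPrime q.asIdeal) g) •
          (⊤ : Submodule (Localization.AtPrime q.asIdeal)
            (LocalizedModule q.asIdeal.primeCompl M)))) ≤
    (Module.rankAtStalk (R := R) (P i) q : ℕ∞) *
      Module.length (Localization.AtPrime q.asIdeal) (Localization.AtPrime q.asIdeal ⧸
        Ideal.ofList ((xs ++ [g]).map (algebraMap R (Localization.AtPrime q.asIdeal)))) := by
  set S := q.asIdeal.primeCompl with hS
  let C : ℕ → Type (max u v) := fun i => LocalizedModule S (P i)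
  let dl : ∀ i, C (i + 1) →ₗ[Localization.AtPrime q.asIdeal] C i :=
    fun i => LocalizedModule.map S (d i)
  have hd : ∀ i (c : P (i + 1 + 1)), d i (d (i + 1) c) = 0 := by
    intro i c
    have : d (i + 1) c ∈ LinearMap.ker (d i) := by
      rw [← h1 i]
      exact ⟨c, rfl⟩
    exact this
  have hmk : ∀ i (c : P (i + 1)) (s : S), dl i (LocalizedModule.mk c s) =
      LocalizedModule.mk (d i c) s := fun i c s => LocalizedModule.map_mk S (d i) c s
  have hdl : ∀ i (c : C (i + 1 + 1)), dl i (dl (i + 1) c) = 0 := by
    intro i c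
    induction c using LocalizedModule.induction_on with
    | h c s =>
      rw [hmk, hmk, hd]
      exact LocalizedModule.zero_mk _
  have hfree : ∀ i, Module.Free (Localization.AtPrime q.asIdeal) (C i) := fun i =>
    Module.free_of_flat_of_isLocalRing
  have hhty : ∀ x : R, (∀ m : M, x • m = 0) →
      ∃ h : ∀ i, C i →ₗ[Localization.AtPrime q.asIdeal] C (i + 1),
        Hty dl (algebraMap R (Localization.AtPrime q.asIdeal) x) h := by
    intro x hx
    obtain ⟨h, H⟩ := exists_hty d ε h0 h1 x hx
    refine ⟨fun i => LocalizedModule.map S (h i), ?_, ?_⟩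
    · intro c
      induction c using LocalizedModule.induction_on with
      | h c s =>
        rw [LocalizedModule.map_mk, hmk, H.zero, algebraMap_smul]
        exact (LocalizedModule.smul'_mk x c s).symm
    · intro i c
      induction c using LocalizedModule.induction_on with
      | h c s =>
        rw [LocalizedModule.map_mk, hmk, hmk, LocalizedModule.map_mk, algebraMap_smul,
          LocalizedModule.smul'_mk, ← H.succ, mk_add_same]
  set B := Localization.AtPrime q.asIdeal with hB
  have hεS : Function.Surjective (LocalizedModule.map S ε) :=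
    LocalizedModule.map_surjective S ε hε
  have hL : ∀ i, ((0 : ℕ).choose i : ℕ∞) * Module.length B (LocalizedModule S M ⧸
      ((algebraMap R B g) • (⊤ : Submodule B (LocalizedModule S M)))) ≤
        lam dl (algebraMap R B g) i := by
    intro i
    cases i with
    | succ i => simp
    | zero =>
      rw [Nat.choose_self, Nat.cast_one, one_mul]
      refine le_lam_zero dl (algebraMap R B g) ((Submodule.mkQ _) ∘ₗ (LocalizedModule.map S ε))
        ((Submodule.mkQ_surjective _).comp hεS) ?_ ?_
      · intro y
        have h2 : LocalizedModule.map S ε (dl 0 y) = 0 := by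
          induction y using LocalizedModule.induction_on with
          | h y s =>
            rw [hmk, LocalizedModule.map_mk]
            have : d 0 y ∈ LinearMap.ker ε := by
              rw [← h0]
              exact ⟨y, rfl⟩
            rw [LinearMap.mem_ker.1 this]
            exact LocalizedModule.zero_mk _
        rw [LinearMap.comp_apply, h2, map_zero]
      · intro z
        rw [LinearMap.comp_apply, Submodule.mkQ_apply, Submodule.Quotient.mk_eq_zero, map_smul]
        exact Submodule.smul_mem_pointwise_smul _ _ _ Submodule.mem_top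
  have hmain := key (algebraMap R B g) _ (xs.map (algebraMap R B)) C dl hdl
    (fun i => weaklyRegular_free (C i) _ hreg) (by
      intro y hy
      obtain ⟨x, hx, rfl⟩ := List.mem_map.1 hy
      exact hhty x (hxs x hx)) 0 hL i (by
        rw [length_quot_free]
        exact WithTop.mul_ne_top (ENat.natCast_ne_top _) hfin)
  rw [length_quot_free, zero_add, List.length_map] at hmain
  rw [List.map_append]
  exact hmain

end Loc

end BEHG
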