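import Pool.Agent.BEHG.Loc
import Pool.Agent.BEHG.Avoid

/-!
# Ranks in projective resolutions of `R ⧸ I`
-/

set_option autoImplicit false

namespace BEHG

open RingTheory.Sequence Pointwise

universe u v

variable {R : Type u} [CommRing R]

/-- `R_q / (xs)` has finite length if `xs` is a regular sequence in `q` of length `ht q`. -/
theorem length_quot_ne_top [IsNoetherianRing R] (q : PrimeSpectrum R) (c : ℕ)
    (hq : q.asIdeal.height = (c : ℕ∞)) (xs : List R) (hlen : xs.length = c)
    (hmem : ∀ x ∈ xs, x ∈ q.asIdeal) (hreg : IsWeaklyRegular R xs) :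
    Module.length (Localization.AtPrime q.asIdeal) (Localization.AtPrime q.asIdeal ⧸
      Ideal.ofList (xs.map (algebraMap R (Localization.AtPrime q.asIdeal)))) ≠ ⊤ := by
  set B := Localization.AtPrime q.asIdeal with hB
  have hr : IsRegular B (xs.map (algebraMap R B)) :=
    IsWeaklyRegular.isRegular_of_isLocalization_of_mem B q.asIdeal hreg hmem
  have h1 := ringKrullDim_add_length_eq_ringKrullDim_of_isRegular (xs.map (algebraMap R B)) hr
  rw [IsLocalization.AtPrime.ringKrullDim_eq_height q.asIdeal B, hq, List.length_map, hlen] at h1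
  set J := Ideal.ofList (xs.map (algebraMap R B)) with hJ
  have h2 : ringKrullDim (B ⧸ J) = 0 := by
    have h3 : ringKrullDim (B ⧸ J) + (c : WithBot ℕ∞) = 0 + (c : WithBot ℕ∞) := by
      rw [h1, zero_add]
      rfl
    exact ENat.WithBot.add_natCast_cancel.1 h3
  have h4 : Ring.KrullDimLE 0 (B ⧸ J) := by
    rw [Ring.krullDimLE_iff, h2]
    exact le_rfl
  have h5 : IsArtinianRing (B ⧸ J) := IsNoetherianRing.isArtinianRing_of_krullDimLE_zero
  have h6 : Module.length B (B ⧸ J) = Module.length (B ⧸ J) (B ⧸ J) :=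
    Module.length_eq_of_surjective (Ideal.Quotient.mk_surjective)
  rw [h6]
  exact Module.length_ne_top

theorem length_cyclic_ge (q : PrimeSpectrum R) (I J : Ideal R) (hIJ : I ≤ J) (g : R)
    (hg : g ∈ J) :
    Module.length (Localization.AtPrime q.asIdeal)
      (Localization.AtPrime q.asIdeal ⧸ J.map (algebraMap R (Localization.AtPrime q.asIdeal))) ≤
    Module.length (Localization.AtPrime q.asIdeal)
      (LocalizedModule q.asIdeal.primeCompl (R ⧸ I) ⧸
        ((algebraMap R (Localization.AtPrime q.asIdeal) g) •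
          (⊤ : Submodule (Localization.AtPrime q.asIdeal)
            (LocalizedModule q.asIdeal.primeCompl (R ⧸ I))))) := by
  set B := Localization.AtPrime q.asIdeal with hB
  set J' := J.map (algebraMap R B) with hJ'
  let ψ0 : R →ₗ[R] (B ⧸ J') := (Ideal.Quotient.mkₐ R J').toLinearMap ∘ₗ Algebra.linearMap R B
  have hψ0 : I ≤ LinearMap.ker ψ0 := by
    intro x hx
    rw [LinearMap.mem_ker]
    exact Ideal.Quotient.eq_zero_iff_mem.2 (Ideal.mem_map_of_mem _ (hIJ hx))
  let ψ : (R ⧸ I) →ₗ[R] (B ⧸ J') := Submodule.liftQ I ψ0 hψ0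
  have hu : ∀ s : q.asIdeal.primeCompl, IsUnit (algebraMap R (Module.End R (B ⧸ J')) s) := by
    intro s
    have h1 : IsUnit (algebraMap R B s) := IsLocalization.map_units B s
    have h2 := h1.map (Algebra.lsmul R R (B ⧸ J'))
    have h3 : Algebra.lsmul R R (B ⧸ J') (algebraMap R B s) =
        algebraMap R (Module.End R (B ⧸ J')) s :=
      LinearMap.ext fun x => algebraMap_smul B (s : R) x
    rwa [h3] at h2
  let Ψ : LocalizedModule q.asIdeal.primeCompl (R ⧸ I) →ₗ[B] (B ⧸ J') :=
    (LocalizedModule.lift q.asIdeal.primeCompl ψ hu).extendScalarsOfIsLocalization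
      q.asIdeal.primeCompl B
  have h1 : Ψ (LocalizedModule.mk (Ideal.Quotient.mk I 1) 1) = 1 := by
    change LocalizedModule.lift q.asIdeal.primeCompl ψ hu _ = 1
    rw [LocalizedModule.lift_mk_one]
    change ψ0 1 = 1
    simp [ψ0]
  refine length_le_of_ker_le (Submodule.mkQ _) Ψ ?_ ?_
  · intro x
    obtain ⟨b, rfl⟩ := Ideal.Quotient.mk_surjective x
    refine ⟨b • LocalizedModule.mk (Ideal.Quotient.mk I 1) 1, ?_⟩
    rw [map_smul, h1]
    change Ideal.Quotient.mk J' (b * 1) = _
    rw [mul_one]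
  · rw [Submodule.ker_mkQ]
    intro z hz
    obtain ⟨w, -, rfl⟩ := (Submodule.mem_smul_pointwise_iff_exists _ _ _).1 hz
    rw [LinearMap.mem_ker, map_smul]
    obtain ⟨b, hb⟩ := Ideal.Quotient.mk_surjective (Ψ w)
    rw [← hb]
    change Ideal.Quotient.mk J' (algebraMap R B g * b) = 0
    exact Ideal.Quotient.eq_zero_iff_mem.2 (J'.mul_mem_right _ (Ideal.mem_map_of_mem _ hg))

/-- Main bound at a prime `q ⊇ I` of height `c`. -/
theorem bound_at [IsNoetherianRing R] {P : ℕ → Type u} [∀ i, AddCommGroup (P i)]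
    [∀ i, Module R (P i)] [∀ i, Module.Projective R (P i)] [∀ i, Module.Finite R (P i)]
    (d : ∀ i, P (i + 1) →ₗ[R] P i) (I : Ideal R) (ε : P 0 →ₗ[R] (R ⧸ I))
    (hε : Function.Surjective ε) (h0 : LinearMap.range (d 0) = LinearMap.ker ε)
    (h1 : ∀ i, LinearMap.range (d (i + 1)) = LinearMap.ker (d i))
    (q : PrimeSpectrum R) (hIq : I ≤ q.asIdeal) (c : ℕ) (hq : q.asIdeal.height = (c : ℕ∞))
    (fs : List R) (hlen : fs.length = c) (hfs : ∀ x ∈ fs, x ∈ I) (φ : R) (hφ : φ ∈ q.asIdeal)
    (hI : I ≤ Ideal.ofList fs ⊔ Ideal.span {φ})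
    (hg : ∃ rs : List R, rs.length = c ∧ (∀ r ∈ rs, r ∈ I) ∧ IsWeaklyRegular R rs) (i : ℕ) :
    c.choose i ≤ Module.rankAtStalk (R := R) (P i) q := by
  -- replace `fs` by a regular sequence
  set K := I ⊓ Ideal.span {φ} with hK
  have hfsI : Ideal.ofList fs ≤ I := Ideal.span_le.2 hfs
  have hIeq : Ideal.ofList fs ⊔ K = I := by
    apply le_antisymm
    · exact sup_le hfsI inf_le_left
    · intro x hx
      obtain ⟨a, ha, b, hb, rfl⟩ := Submodule.mem_sup.1 (hI hx)
      refine Ideal.add_mem _ (Ideal.mem_sup_left ha) (Ideal.mem_sup_right ⟨?_, hb⟩)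
      have := I.sub_mem hx (hfsI ha)
      rwa [add_sub_cancel_left] at this
  have hItop : I • (⊤ : Submodule R R) < ⊤ := by
    rw [smul_eq_mul, Ideal.mul_top]
    exact lt_of_le_of_lt hIq (lt_top_iff_ne_top.2 q.isPrime.ne_top)
  obtain ⟨rs, hrs1, hrs2, hrs3⟩ := hg
  have hrsreg : IsRegular R rs := by
    refine ⟨hrs3, ?_⟩
    intro h
    have h2 : Ideal.ofList rs • (⊤ : Submodule R R) ≤ I • (⊤ : Submodule R R) :=
      Submodule.smul_mono_left (Ideal.span_le.2 hrs2)
    rw [← h] at h2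
    exact hItop.not_ge h2
  obtain ⟨xs, hxs1, hxs2, hxs3⟩ := gen_regular K c R fs hlen (by rw [hIeq]; exact hItop)
    ⟨rs, hrs1, by rw [hIeq]; exact hrs2, hrsreg⟩
  rw [hIeq] at hxs2
  have hxsI : ∀ x ∈ xs, x ∈ I := by
    intro x hx
    rw [← hxs2]
    exact Ideal.mem_sup_left (Ideal.subset_span hx)
  have hfin := length_quot_ne_top q c hq xs hxs1 (fun x hx => hIq (hxsI x hx)) hxs3.1
  have hreg : IsWeaklyRegular (Localization.AtPrime q.asIdeal)
      (xs.map (algebraMap R (Localization.AtPrime q.asIdeal))) :=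
    hxs3.1.of_isLocalization (Localization.AtPrime q.asIdeal) q.asIdeal.primeCompl
  have hb := local_bound d ε hε h0 h1 q xs (fun x hx m => by
    obtain ⟨m, rfl⟩ := Ideal.Quotient.mk_surjective m
    change Ideal.Quotient.mk I (x * m) = 0
    exact Ideal.Quotient.eq_zero_iff_mem.2 (I.mul_mem_right _ (hxsI x hx))) φ hreg hfin i
  have hJ : I ≤ Ideal.ofList (xs ++ [φ]) := by
    rw [Ideal.ofList_append, Ideal.ofList_singleton, ← hxs2]
    exact sup_le_sup le_rfl inf_le_right
  have hc := length_cyclic_ge q I (Ideal.ofList (xs ++ [φ])) hJ φ (by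
    rw [Ideal.ofList_append, Ideal.ofList_singleton]
    exact Ideal.mem_sup_right (Ideal.mem_span_singleton_self φ))
  rw [Ideal.map_ofList] at hc
  set ℓ := Module.length (Localization.AtPrime q.asIdeal) (Localization.AtPrime q.asIdeal ⧸
        Ideal.ofList ((xs ++ [φ]).map (algebraMap R (Localization.AtPrime q.asIdeal)))) with hℓ
  have hℓtop : ℓ ≠ ⊤ := by
    intro h
    apply hfin
    rw [eq_top_iff, ← h, hℓ]
    refine Module.length_le_of_surjective (Submodule.factor ?_) (Submodule.factor_surjective _)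
    rw [List.map_append, Ideal.ofList_append]
    exact le_sup_left
  have hℓ0 : ℓ ≠ 0 := by
    rw [hℓ, Ne, Module.length_eq_zero_iff, Ideal.Quotient.subsingleton_iff]
    intro h
    have h2 : Ideal.ofList ((xs ++ [φ]).map (algebraMap R (Localization.AtPrime q.asIdeal))) ≤
        IsLocalRing.maximalIdeal (Localization.AtPrime q.asIdeal) := by
      refine Ideal.span_le.2 ?_
      intro y hy
      obtain ⟨x, hx, rfl⟩ := List.mem_map.1 hy
      rw [SetLike.mem_coe, IsLocalization.AtPrime.to_map_mem_maximal_iff _ q.asIdeal]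
      rcases List.mem_append.1 hx with hx | hx
      · exact hIq (hxsI x hx)
      · rw [List.mem_singleton.1 hx]
        exact hφ
    rw [h, top_le_iff] at h2
    exact (IsLocalRing.maximalIdeal.isMaximal _).ne_top h2
  rw [hxs1] at hb
  have hb2 : ((c.choose i : ℕ) : ℕ∞) * ℓ ≤
      ((Module.rankAtStalk (R := R) (P i) q : ℕ) : ℕ∞) * ℓ :=
    (mul_le_mul_right hc _).trans hb
  lift ℓ to ℕ using hℓtop with l hl
  have hb3 : c.choose i * l ≤ Module.rankAtStalk (R := R) (P i) q * l := by
    exact_mod_cast hb2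
  exact Nat.le_of_mul_le_mul_right hb3 (Nat.pos_of_ne_zero (by
    intro h
    apply hℓ0
    rw [h]
    rfl))

end BEHG
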