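import Pool.Agent.BEHG.Main

set_option autoImplicit false

namespace Pool.Agent.BEHG.NoetherianACI

/-- Let `R` be a Noetherian ring with connected spectrum and `I` an ideal of height `c` which
contains a regular sequence of length `c` (automatic if `R` is Cohen-Macaulay).  Suppose that
there are `f_1, ..., f_c ∈ I` and `φ ∈ R` with `I ⊆ (f_1, ..., f_c, φ)`, where `φ` lies in some
prime `q ⊇ I` of height `c`; for instance `I` is generated by `c + 1` elements (take for `φ` one of
the generators).  Then in every resolution `P` of `R ⧸ I` by finitely generated projective modules,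
finite or not, the module `P i` has rank at least `c choose i` at every prime, for every `i`. -/
theorem result :
    ∀ (R : Type) [CommRing R] [IsNoetherianRing R] [ConnectedSpace (PrimeSpectrum R)]
      (I : Ideal R) (c : ℕ), I.height = (c : ℕ∞) →
      (∃ rs : List R, rs.length = c ∧ (∀ r ∈ rs, r ∈ I) ∧
        RingTheory.Sequence.IsWeaklyRegular R rs) →
      ∀ (f : Fin c → R) (φ : R), (∀ j, f j ∈ I) →
      I ≤ Ideal.span (Set.range f) ⊔ Ideal.span {φ} →
      (∃ q : PrimeSpectrum R, I ≤ q.asIdeal ∧ q.asIdeal.height = (c : ℕ∞) ∧ φ ∈ q.asIdeal) →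
      ∀ (P : ℕ → Type) [∀ i, AddCommGroup (P i)] [∀ i, Module R (P i)]
        [∀ i, Module.Finite R (P i)] [∀ i, Module.Projective R (P i)]
        (d : ∀ i, P (i + 1) →ₗ[R] P i) (ε : P 0 →ₗ[R] (R ⧸ I)),
        Function.Surjective ε →
        LinearMap.range (d 0) = LinearMap.ker ε →
        (∀ i, LinearMap.range (d (i + 1)) = LinearMap.ker (d i)) →
        ∀ (i : ℕ) (p : PrimeSpectrum R),
          c.choose i ≤ Module.finrank (Localization.AtPrime p.asIdeal)
            (LocalizedModule p.asIdeal.primeCompl (P i)) := by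
  intro R _ _ _ I c _ hg f φ hf hI hq P _ _ _ _ d ε hε h0 h1 i p
  obtain ⟨q, hIq, hqc, hφ⟩ := hq
  have h := BEHG.bound_at d I ε hε h0 h1 q hIq c hqc (List.ofFn f) (List.length_ofFn)
    (by
      intro x hx
      obtain ⟨j, rfl⟩ := List.mem_ofFn.1 hx
      exact hf j) φ hφ (by
      refine hI.trans (sup_le_sup (Ideal.span_mono ?_) le_rfl)
      rintro _ ⟨j, rfl⟩
      exact List.mem_ofFn.2 ⟨j, rfl⟩) hg i
  have := Module.finitePresentation_of_finite R (P i)
  have hconst : Module.rankAtStalk (R := R) (P i) q = Module.rankAtStalk (R := R) (P i) p :=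
    (Module.isLocallyConstant_rankAtStalk (R := R) (M := P i)).apply_eq_of_preconnectedSpace q p
  rw [hconst] at h
  exact h

end Pool.Agent.BEHG.NoetherianACI
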